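import Pool.Agent.Helper61.P3.St3

/-! # Project P3 (MP_cb927e_an), module BAD (bad windows of one class) -/

set_option autoImplicit false

open MeasureTheory Set Filter Topology
open scoped ENNReal RealInnerProductSpace

namespace Pool.Agent.Helper53.P3

open Pool.Agent.Helper61.P3
open Pool.Agent.Helper20.RG
open Pool.Agent.Helper20.EQ
open Pool.Agent.Helper68.LM (Pl BB Bd Av HL ft fm DQ)
open Pool.Agent.Helper68.EP (elt GapP)

private lemma contZc (hYC : Pool.Agent.Helper20.RG.StYC) {φ τ : ℝ → ℝ} (hG : Graph φ τ) (c : Pl)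
    (u w : ℕ) (k : ℤ) (j : ℕ) {g : Pl → ℝ} (hg : BB g) : Continuous (Zc c φ τ u w k j g) := by
  have h1 : |sl τ u j| ≤ 1 := hG.1 _
  have h2 : (0 : ℝ) < (2 : ℝ) ^ w := by positivity
  have h3 := (hYC (sl τ u j) (ce c φ u j) (mm τ u j) (mm τ u j) ((2 : ℝ) ^ w) k g h1 h2 hg).1
  have h4 := (hYC (sl τ u j) (ce c φ u j) (mp τ u j) (mp τ u j) ((2 : ℝ) ^ w) k g h1 h2 hg).1
  exact h3.sub h4

private lemma measEz (hYC : Pool.Agent.Helper20.RG.StYC) {φ τ : ℝ → ℝ} (hG : Graph φ τ) (c : Pl)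
    (u w : ℕ) (η : ℝ) (k : ℤ) (j : ℕ) {g : Pl → ℝ} (hg : BB g) :
    MeasurableSet (Ez c φ τ u w η k g j) :=
  (isOpen_lt continuous_const (contZc hYC hG c u w k j hg).abs).measurableSet

private lemma cheb (hYC : Pool.Agent.Helper20.RG.StYC) {φ τ : ℝ → ℝ} (hG : Graph φ τ) (c : Pl)
    (u w : ℕ) {η : ℝ} (hη : 0 < η) (k : ℤ) (j : ℕ) {g : Pl → ℝ} (hg : BB g) :
    volume (Ez c φ τ u w η k g j) ≤
      ENNReal.ofReal (64 / η ^ 2) * ∫⁻ x, ‖Zc c φ τ u w k j g x‖ₑ ^ 2 := by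
  have hc := contZc hYC hG c u w k j hg
  have hm : Measurable fun x => ‖Zc c φ τ u w k j g x‖ₑ ^ 2 :=
    (hc.measurable.enorm).pow_const 2
  have h1 := mul_meas_ge_le_lintegral (μ := (volume : Measure Pl)) hm (ENNReal.ofReal ((η / 8) ^ 2))
  have h2 : Ez c φ τ u w η k g j ⊆
      {x | ENNReal.ofReal ((η / 8) ^ 2) ≤ ‖Zc c φ τ u w k j g x‖ₑ ^ 2} := by
    intro x hx
    have hx' : η / 8 < |Zc c φ τ u w k j g x| := hx
    show ENNReal.ofReal ((η / 8) ^ 2) ≤ ‖Zc c φ τ u w k j g x‖ₑ ^ 2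
    rw [Real.enorm_eq_ofReal_abs, ← ENNReal.ofReal_pow (abs_nonneg _)]
    exact ENNReal.ofReal_le_ofReal (pow_le_pow_left₀ (by positivity) hx'.le 2)
  have h3 : ENNReal.ofReal (64 / η ^ 2) * ENNReal.ofReal ((η / 8) ^ 2) = 1 := by
    rw [← ENNReal.ofReal_mul (by positivity)]
    have : 64 / η ^ 2 * (η / 8) ^ 2 = 1 := by
      field_simp
      norm_num
    rw [this, ENNReal.ofReal_one]
  calc volume (Ez c φ τ u w η k g j)
      ≤ volume {x | ENNReal.ofReal ((η / 8) ^ 2) ≤ ‖Zc c φ τ u w k j g x‖ₑ ^ 2} := measure_mono h2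
    _ = ENNReal.ofReal (64 / η ^ 2) * (ENNReal.ofReal ((η / 8) ^ 2) *
          volume {x | ENNReal.ofReal ((η / 8) ^ 2) ≤ ‖Zc c φ τ u w k j g x‖ₑ ^ 2}) := by
        rw [← mul_assoc, h3, one_mul]
    _ ≤ _ := by gcongr

theorem hBAD (hYC : Pool.Agent.Helper20.RG.StYC) (hSYS : Pool.Agent.Helper20.RG.StSYS)
    (hGPG : Pool.Agent.Helper68.EP.StGPG) (hWIM : Pool.Agent.Helper61.P3.StWIM)
    (hWLI : Pool.Agent.Helper61.P3.StWLI) (hSHQ : Pool.Agent.Helper61.P3.StSHQ) :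
    Pool.Agent.Helper61.P3.StBAD := by
  intro φ τ A c hG hA hGap
  obtain ⟨C₁, hC₁, hSH⟩ := hSHQ φ τ A c hG hA hGap
  obtain ⟨U₀, hU₀, hWL⟩ := hWLI φ τ A hG hA hGap
  refine ⟨48 * 64 * (C₁ * C₁), U₀, by nlinarith, ?_⟩
  intro u U e η D₀ D₁ g hU hu he hη hD₀ hD₁ hg
  set n : ℕ := U / 10 with hn
  have hnU : n ≤ U := Nat.div_le_self _ _
  -- the windows
  have hq : ∀ i < n, 2 * qw U (i + 1) = qw U i ∧ 10 * U + 20 ≤ qw U i := by
    intro i hi
    obtain ⟨-, h2, h3, -⟩ := hWL U i hU hi.le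
    exact ⟨h2, h3⟩
  set K : ℝ := (2 : ℝ) ^ n * (48 * D₀ / D₁) ^ (e - 1) * (48 / D₁) with hK
  have hK0 : 0 ≤ K := by positivity
  set I : ℝ≥0∞ := ∫⁻ x, ‖g x‖ₑ ^ 2 with hI
  -- one scale
  have key : ∀ k : ℤ, volume {x | e ≤ {i : ℕ | i < n ∧ TD c φ τ u (qw U i) η D₀ k g x ∧
      ¬ GW c φ τ u (qw U i) η D₁ k g x}.ncard} ≤
      ENNReal.ofReal K * ∑ i ∈ Finset.range n, ∑ j ∈ Finset.range (2 ^ u),
        volume (Ez c φ τ u (32 * qw U i) η k g j) := by
    intro k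
    have h1 := hWIM n (2 ^ u) e (fun i => k + 32 * (qw U i : ℤ))
      (fun i d => if d = 0 then 2 * (2 : ℝ) ^ (k + 20 * (qw U i : ℤ)) else if d = 1 then
        5 * (2 : ℝ) ^ (k + 24 * (qw U i : ℤ)) / 2 else 24 * (2 : ℝ) ^ (k + 28 * (qw U i : ℤ)))
      (fun i => Ez c φ τ u (32 * qw U i) η k g) D₀ D₁ he hD₀ hD₁
      (fun i _ j _ => measEz hYC hG c u (32 * qw U i) η k j hg)
      (fun i hi => by
        have := (hq i hi).1
        have h2 : (qw U (i + 1) : ℤ) ≤ (qw U i : ℤ) := by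
          have : qw U (i + 1) ≤ qw U i := by omega
          exact_mod_cast this
        show k + 32 * (qw U (i + 1) : ℤ) ≤ k + 32 * (qw U i : ℤ)
        linarith)
      (fun i hi d hd => by
        obtain ⟨h2, h3⟩ := hq i hi
        have h4 : (2 : ℤ) * (qw U (i + 1) : ℤ) = (qw U i : ℤ) := by exact_mod_cast h2
        have h5 : (5 : ℤ) ≤ (qw U i : ℤ) := by
          have : 5 ≤ qw U i := by omega
          exact_mod_cast this
        have e1 : k + 32 * (qw U (i + 1) : ℤ) = k + 16 * (qw U i : ℤ) := by linarith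
        have mono : ∀ a b : ℤ, a ≤ b → (2 : ℝ) ^ a ≤ (2 : ℝ) ^ b := fun a b hab =>
          zpow_le_zpow_right₀ (by norm_num) hab
        have pos : ∀ a : ℤ, (0 : ℝ) < (2 : ℝ) ^ a := fun a => by positivity
        have sp : ∀ a b : ℤ, (2 : ℝ) ^ (a + b) = (2 : ℝ) ^ a * (2 : ℝ) ^ b := fun a b =>
          zpow_add₀ (by norm_num) a b
        have b5 : (32 : ℝ) ≤ (2 : ℝ) ^ (4 * (qw U i : ℤ)) := by
          have := mono 5 (4 * (qw U i : ℤ)) (by linarith)
          have e2 : (2 : ℝ) ^ (5 : ℤ) = 32 := by norm_num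
          linarith
        show (2 : ℝ) ^ (k + 32 * (qw U (i + 1) : ℤ)) ≤ _ ∧ _ ≤ (2 : ℝ) ^ (k + 32 * (qw U i : ℤ))
        rw [e1]
        have t1 : ∀ b : ℤ, b + 4 * (qw U i : ℤ) ≤ k + 32 * (qw U i : ℤ) →
            32 * (2 : ℝ) ^ b ≤ (2 : ℝ) ^ (k + 32 * (qw U i : ℤ)) := by
          intro b hb
          have h6 := mono _ _ hb
          rw [sp] at h6
          nlinarith [pos b]
        interval_cases d
        · simp only [if_true]
          have h6 := mono (k + 16 * (qw U i : ℤ)) (k + 20 * (qw U i : ℤ)) (by linarith)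
          have h7 := t1 (k + 20 * (qw U i : ℤ)) (by linarith)
          constructor <;> linarith [pos (k + 20 * (qw U i : ℤ))]
        · simp only [one_ne_zero, if_false, if_true]
          have h6 := mono (k + 16 * (qw U i : ℤ)) (k + 24 * (qw U i : ℤ)) (by linarith)
          have h7 := t1 (k + 24 * (qw U i : ℤ)) (by linarith)
          constructor <;> linarith [pos (k + 24 * (qw U i : ℤ))]
        · simp only [show (2 : ℕ) ≠ 0 by norm_num, show (2 : ℕ) ≠ 1 by norm_num, if_false]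
          have h6 := mono (k + 16 * (qw U i : ℤ)) (k + 28 * (qw U i : ℤ)) (by linarith)
          have h7 := t1 (k + 28 * (qw U i : ℤ)) (by linarith)
          constructor <;> linarith [pos (k + 28 * (qw U i : ℤ))])
    refine le_trans (measure_mono ?_) h1
    intro x hx
    have hx' : e ≤ {i : ℕ | i < n ∧ TD c φ τ u (qw U i) η D₀ k g x ∧
      ¬ GW c φ τ u (qw U i) η D₁ k g x}.ncard := hx
    show e ≤ _
    refine le_trans hx' (Set.ncard_le_ncard ?_ ((Set.finite_lt_nat n).subset fun i hi => hi.1))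
    intro i hi
    obtain ⟨i1, i2, i3⟩ := hi
    refine ⟨i1, i2, fun hall => i3 ?_⟩
    have g0 := hall 0 (by norm_num)
    have g1 := hall 1 (by norm_num)
    have g2 := hall 2 (by norm_num)
    simp only [if_true] at g0
    simp only [one_ne_zero, if_false, if_true] at g1
    simp only [show (2 : ℕ) ≠ 0 by norm_num, show (2 : ℕ) ≠ 1 by norm_num, if_false] at g2
    exact ⟨g0, g1, g2⟩
  -- one window
  have win : ∀ i : ℕ, ∑' k : ℤ, ∑ j ∈ Finset.range (2 ^ u),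
      volume (Ez c φ τ u (32 * qw U i) η k g j) ≤
      ENNReal.ofReal (64 / η ^ 2) * (ENNReal.ofReal C₁ * (ENNReal.ofReal (C₁ * (2 : ℝ) ^ (3 * u)) * I)) := by
    intro i
    obtain ⟨-, -, h3, h4⟩ := hSH u (32 * qw U i) g hu hg
    calc ∑' k : ℤ, ∑ j ∈ Finset.range (2 ^ u), volume (Ez c φ τ u (32 * qw U i) η k g j)
        ≤ ∑' k : ℤ, ∑ j ∈ Finset.range (2 ^ u), ENNReal.ofReal (64 / η ^ 2) *
            ∫⁻ x, ‖Zc c φ τ u (32 * qw U i) k j g x‖ₑ ^ 2 := by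
          refine ENNReal.tsum_le_tsum fun k => Finset.sum_le_sum fun j _ => ?_
          exact cheb hYC hG c u (32 * qw U i) hη k j hg
      _ = ENNReal.ofReal (64 / η ^ 2) * ∑' k : ℤ, ∑ j ∈ Finset.range (2 ^ u),
            ∫⁻ x, ‖Zc c φ τ u (32 * qw U i) k j g x‖ₑ ^ 2 := by
          rw [← ENNReal.tsum_mul_left]
          congr 1
          ext k
          rw [Finset.mul_sum]
      _ ≤ ENNReal.ofReal (64 / η ^ 2) * (ENNReal.ofReal C₁ * BQ0 τ u g) := by gcongr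
      _ ≤ _ := by gcongr
  calc ∑' k : ℤ, volume {x | e ≤ {i : ℕ | i < n ∧ TD c φ τ u (qw U i) η D₀ k g x ∧
          ¬ GW c φ τ u (qw U i) η D₁ k g x}.ncard}
      ≤ ∑' k : ℤ, ENNReal.ofReal K * ∑ i ∈ Finset.range n, ∑ j ∈ Finset.range (2 ^ u),
        volume (Ez c φ τ u (32 * qw U i) η k g j) := ENNReal.tsum_le_tsum key
    _ = ENNReal.ofReal K * ∑ i ∈ Finset.range n, ∑' k : ℤ, ∑ j ∈ Finset.range (2 ^ u),
        volume (Ez c φ τ u (32 * qw U i) η k g j) := by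
        rw [ENNReal.tsum_mul_left]
        congr 1
        exact Summable.tsum_finsetSum fun i _ => ENNReal.summable
    _ ≤ ENNReal.ofReal K * ∑ i ∈ Finset.range n, ENNReal.ofReal (64 / η ^ 2) *
          (ENNReal.ofReal C₁ * (ENNReal.ofReal (C₁ * (2 : ℝ) ^ (3 * u)) * I)) := by
        gcongr with i _
        exact win i
    _ = ENNReal.ofReal K * (ENNReal.ofReal (n : ℝ) * (ENNReal.ofReal (64 / η ^ 2) *
          (ENNReal.ofReal C₁ * (ENNReal.ofReal (C₁ * (2 : ℝ) ^ (3 * u)) * I)))) := by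
        rw [Finset.sum_const, Finset.card_range, nsmul_eq_mul, ENNReal.ofReal_natCast]
    _ = ENNReal.ofReal (K * ((n : ℝ) * (64 / η ^ 2 * (C₁ * (C₁ * (2 : ℝ) ^ (3 * u)))))) * I := by
        have c0 : (0 : ℝ) ≤ C₁ := by linarith
        have a0 : (0 : ℝ) ≤ 64 / η ^ 2 := by positivity
        have ee : ENNReal.ofReal (K * ((n : ℝ) * (64 / η ^ 2 * (C₁ * (C₁ * (2 : ℝ) ^ (3 * u)))))) =
            ENNReal.ofReal K * (ENNReal.ofReal (n : ℝ) * (ENNReal.ofReal (64 / η ^ 2) *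
              (ENNReal.ofReal C₁ * ENNReal.ofReal (C₁ * (2 : ℝ) ^ (3 * u))))) := by
          rw [ENNReal.ofReal_mul hK0, ENNReal.ofReal_mul (Nat.cast_nonneg n),
            ENNReal.ofReal_mul a0, ENNReal.ofReal_mul c0]
        rw [ee]
        ring
    _ ≤ _ := by
        refine mul_le_mul' (ENNReal.ofReal_le_ofReal ?_) le_rfl
        have c0 : (0 : ℝ) < C₁ := by linarith
        have h1 : (n : ℝ) ≤ (2 : ℝ) ^ U := by
          have h2 : n < 2 ^ n := Nat.lt_two_pow_self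
          have h3 : 2 ^ n ≤ 2 ^ U := Nat.pow_le_pow_right (by norm_num) hnU
          have h4 : n ≤ 2 ^ U := by omega
          exact_mod_cast h4
        have h2 : (2 : ℝ) ^ n ≤ (2 : ℝ) ^ U := pow_le_pow_right₀ (by norm_num) hnU
        have h3 : (2 : ℝ) ^ n * (n : ℝ) ≤ (4 : ℝ) ^ U := by
          have h4 : (4 : ℝ) ^ U = (2 : ℝ) ^ U * (2 : ℝ) ^ U := by
            rw [← mul_pow]
            norm_num
          rw [h4]
          exact mul_le_mul h2 h1 (by positivity) (by positivity)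
        set Q : ℝ := (48 * D₀ / D₁) ^ (e - 1) with hQ
        have hQ0 : 0 ≤ Q := by positivity
        have e1 : K * ((n : ℝ) * (64 / η ^ 2 * (C₁ * (C₁ * (2 : ℝ) ^ (3 * u))))) =
            ((2 : ℝ) ^ n * (n : ℝ)) * (48 * 64 * (C₁ * C₁) * Q / (D₁ * η ^ 2) * (2 : ℝ) ^ (3 * u)) := by
          rw [hK]
          field_simp
        have e2 : 48 * 64 * (C₁ * C₁) * (4 : ℝ) ^ U * Q / (D₁ * η ^ 2) * (2 : ℝ) ^ (3 * u) =
            (4 : ℝ) ^ U * (48 * 64 * (C₁ * C₁) * Q / (D₁ * η ^ 2) * (2 : ℝ) ^ (3 * u)) := by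
          field_simp
        rw [e1, e2]
        exact mul_le_mul_of_nonneg_right h3 (by positivity)

end Pool.Agent.Helper53.P3
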